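import Pool.Agent.Q255.EP.Fin
import Pool.Agent.Q163.EX.Exp
import Pool.Agent.Q13.EP.REC
import Pool.Agent.Q13.EP.POLY
import Pool.Agent.Q190.EP.AZ
import Pool.Agent.Q190.EP.DET
import Pool.Agent.Q190.EP.PRD
import Pool.Agent.Q190.EP.Eng
import Pool.Agent.Q68.EP.Law
import Pool.Agent.Q13.EP.LOW
import Pool.Agent.Q14.EP.Fin

/-!
# The price of the growth exponent of exponential sums with the Moebius function

Let `f` be completely multiplicative with the values `1`, `-1` at the primes. The signs at the primes may have any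
joint law whatsoever; `I(x)` is the relative entropy (Kullback-Leibler divergence) of the law of the signs
`f(p)`, `p ≤ x`, to independent fair signs.

1. If `I(x) ≤ x^{δ + o(1)}` then almost surely `∑ w(m) f(m) = O(M^{(1+δ)/2} 2^{εJ})` for all `ε > 0`, for all weights
`w` of length `M` in given sets `W_J` of at most `exp(A(J+1))` functions bounded by `1` which vanish beyond
`2^J`; in particular `∑_{n ≤ R} a(n) f(n) e(F(n)) = O(R^{(1+δ)/2+ε})` for given `|a| ≤ 1`, for all real polynomials `F` of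
bounded degree at once, and the growth exponent `θ` of the sup norm of the sums with the coefficients
`μ(n) f(n)` is in `[1/2, (1+δ)/2]`. The same holds after any change of `f` at finitely many primes.
2. This is sharp for every `0 ≤ δ < 1`: some law with `I(x) = O(x^δ)` has `θ = (1+δ)/2` almost surely.
-/

set_option autoImplicit false

namespace Pool.Agent.Results.MP_b6b996_nt.PriceOfTheExponent

open Finset Filter Topology MeasureTheory

/-- the sign at the prime with the number `k` (`2` has the number `0`) -/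
def sign (ω : ℕ → Bool) (k : ℕ) : ℝ := if ω k then 1 else -1

/-- `f(n) = ∏_p f(p)^{v_p(n)}`, the completely multiplicative function with the sign `ω k` at the prime with the
number `k` (`Nat.count Nat.Prime p` is the number of the primes less than `p`) -/
noncomputable def f (ω : ℕ → Bool) (n : ℕ) : ℝ :=
  n.factorization.prod fun p j => sign ω (Nat.count Nat.Prime p) ^ j

/-- `I(x)`: the relative entropy `∑_s q(s) log (2^n q(s))` of the law `q` of the signs at the `n = π(x)` primes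
`p ≤ x` to independent fair signs, in nats -/
noncomputable def information (ν : Measure (ℕ → Bool)) (x : ℕ) : ℝ :=
  ∑ s : Fin (Nat.primeCounting x) → Bool, ν.real {ω | ∀ k : Fin (Nat.primeCounting x), ω k = s k} *
    Real.log (2 ^ Nat.primeCounting x *
      ν.real {ω | ∀ k : Fin (Nat.primeCounting x), ω k = s k})

/-- `I(x) ≤ x^{δ + o(1)}` -/
def InformationExponentAtMost (ν : Measure (ℕ → Bool)) (δ : ℝ) : Prop :=
  ∀ ε : ℝ, 0 < ε → ∀ᶠ x : ℕ in atTop, information ν x ≤ (x : ℝ) ^ (δ + ε)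

/-- the Moebius function -/
noncomputable def moeb (n : ℕ) : ℝ := ((ArithmeticFunction.moebius n : ℤ) : ℝ)

/-- `e(x) = exp(2 π i x)` -/
noncomputable def e (x : ℝ) : ℂ := Complex.exp ((2 * Real.pi * x : ℝ) * Complex.I)

/-- the growth exponent of the sup norm of the exponential sums with the coefficients `g` -/
noncomputable def theta (g : ℕ → ℝ) : ℝ := sInf {a : ℝ | 0 ≤ a ∧ ∃ C : ℝ, ∀ R : ℕ, 1 ≤ R → ∀ x : ℝ,
  ‖∑ n ∈ Finset.Icc 1 R, (g n : ℂ) * e (n * x)‖ ≤ C * (R : ℝ) ^ a}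

/-- square root cancellation up to the power `2^{εJ}`, exponent `σ`, for all weights `w` in the sets `W_J`; `M` is
any number beyond which `w` vanishes -/
def AllWeights (g : ℕ → ℝ) (W : ℕ → Finset (ℕ → ℝ)) (σ : ℝ) : Prop :=
  ∀ ε : ℝ, 0 < ε → ∃ C : ℝ, ∀ J, ∀ w ∈ W J, ∀ M : ℕ, (∀ m, M < m → w m = 0) →
    |∑ m ∈ Finset.Icc 1 M, w m * g m| ≤ C * (2 : ℝ) ^ (ε * J) * (M : ℝ) ^ σ

/-- the bound for the weights `a` and all polynomial phases of bounded degree -/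
def AllPhases (g a : ℕ → ℝ) (σ : ℝ) : Prop :=
  ∀ (d : ℕ) (ε : ℝ), 0 < ε → ∃ C : ℝ, ∀ (R : ℕ) (F : Polynomial ℝ), 1 ≤ R → F.natDegree ≤ d →
    ‖∑ n ∈ Finset.Icc 1 R, ((a n * g n : ℝ) : ℂ) * e (F.eval (n : ℝ))‖ ≤ C * (R : ℝ) ^ (σ + ε)

/-! ## Translation -/

open Pool.Agent.Q255.EP

theorem f_eq (ω : ℕ → Bool) : f ω = cm ω := rfl

theorem info_eq (ν : Measure (ℕ → Bool)) [IsProbabilityMeasure ν] (x : ℕ) :
    information ν x = Pool.Agent.Q255.IR.D ν (Nat.primeCounting x) := D_eq_sum ν _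

theorem IL_of {ν : Measure (ℕ → Bool)} [IsProbabilityMeasure ν] {δ : ℝ}
    (h : InformationExponentAtMost ν δ) : IL ν δ := by
  intro ε hε
  filter_upwards [h ε hε] with x hx
  rwa [info_eq] at hx

/-- linear phases -/
theorem lin {g : ℕ → ℝ} {C σ : ℝ} {R : ℕ} (h : ∀ F : Polynomial ℝ, F.natDegree ≤ 1 →
    ‖∑ n ∈ Finset.Icc 1 R, (g n : ℂ) * e (F.eval (n : ℝ))‖ ≤ C * (R : ℝ) ^ σ) (x : ℝ) :
    ‖∑ n ∈ Finset.Icc 1 R, (g n : ℂ) * e (n * x)‖ ≤ C * (R : ℝ) ^ σ := by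
  have h1 := h (Polynomial.C x * Polynomial.X)
    ((Polynomial.natDegree_C_mul_le _ _).trans Polynomial.natDegree_X_le)
  simp only [Polynomial.eval_mul, Polynomial.eval_C, Polynomial.eval_X] at h1
  simp only [mul_comm _ x]
  exact h1

theorem theta_bdd (g : ℕ → ℝ) : BddBelow {a : ℝ | 0 ≤ a ∧ ∃ C : ℝ, ∀ R : ℕ, 1 ≤ R → ∀ x : ℝ,
    ‖∑ n ∈ Finset.Icc 1 R, (g n : ℂ) * e (n * x)‖ ≤ C * (R : ℝ) ^ a} := ⟨0, fun _ h => h.1⟩

theorem theta_le {g : ℕ → ℝ} {M : ℝ} (hM : 0 ≤ M) (h : ∀ σ : ℝ, M < σ → ∃ C : ℝ, ∀ R : ℕ, 1 ≤ R →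
    ∀ x : ℝ, ‖∑ n ∈ Finset.Icc 1 R, (g n : ℂ) * e (n * x)‖ ≤ C * (R : ℝ) ^ σ) : theta g ≤ M :=
  le_of_forall_gt_imp_ge_of_dense fun σ hσ => csInf_le (theta_bdd g) ⟨by linarith, h σ hσ⟩

theorem le_theta {g : ℕ → ℝ} {M : ℝ} (hne : ∃ a : ℝ, 0 ≤ a ∧ ∃ C : ℝ, ∀ R : ℕ, 1 ≤ R →
    ∀ x : ℝ, ‖∑ n ∈ Finset.Icc 1 R, (g n : ℂ) * e (n * x)‖ ≤ C * (R : ℝ) ^ a)
    (h : ∀ a C : ℝ, 0 ≤ a → (∀ R : ℕ, 1 ≤ R → ∀ x : ℝ,
      ‖∑ n ∈ Finset.Icc 1 R, (g n : ℂ) * e (n * x)‖ ≤ C * (R : ℝ) ^ a) → M ≤ a) : M ≤ theta g := by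
  obtain ⟨a, ha⟩ := hne
  refine le_csInf ⟨a, ha⟩ fun b hb => ?_
  obtain ⟨hb0, C, hC⟩ := hb
  exact h b C hb0 hC

/-- squarefree numbers have positive density -/
theorem sqf_dens : ∃ R0 : ℕ, ∀ R : ℕ, R0 ≤ R → 1 / 4 * (R : ℝ) ≤ ∑ n ∈ Icc 1 R, moeb n ^ 2 := by
  refine ⟨400, fun R hR => ?_⟩
  have h1 := (abs_le.1 (Pool.Agent.Q163.GC.QQ_bound R)).1
  have hRR : (400 : ℝ) ≤ R := by exact_mod_cast hR
  have h2 : Pool.Agent.Q163.GC.QQ R = ∑ n ∈ Icc 1 R, moeb n ^ 2 := by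
    unfold Pool.Agent.Q163.GC.QQ
    refine sum_nbij' (fun n => n + 1) (fun n => n - 1) ?_ ?_ ?_ ?_ ?_
    · intro n hn
      rw [mem_range] at hn
      rw [mem_Icc]
      omega
    · intro n hn
      rw [mem_Icc] at hn
      rw [mem_range]
      omega
    · intro n _
      rfl
    · intro n hn
      rw [mem_Icc] at hn
      show n - 1 + 1 = n
      omega
    · intro n _
      rfl
  rw [h2] at h1
  have hpi : 6 / Real.pi ^ 2 ≥ 1 / 2 := by
    have h3 := Real.pi_lt_d2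
    have h4 := Real.pi_pos
    rw [ge_iff_le, div_le_div_iff₀ (by norm_num) (by positivity)]
    nlinarith
  have h5 : Real.sqrt R ≤ R / 20 := by
    rw [Real.sqrt_le_left (by positivity)]
    nlinarith
  nlinarith

theorem moeb_le (n : ℕ) : |moeb n| ≤ 1 := by
  unfold moeb
  have := ArithmeticFunction.abs_moebius_le_one (n := n)
  exact_mod_cast this

/-- the exponent is at least `1/2` -/
theorem half_le_theta {ω : ℕ → Bool} (hne : ∃ a : ℝ, 0 ≤ a ∧ ∃ C : ℝ, ∀ R : ℕ, 1 ≤ R →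
    ∀ x : ℝ, ‖∑ n ∈ Finset.Icc 1 R, ((moeb n * f ω n : ℝ) : ℂ) * e (n * x)‖ ≤ C * (R : ℝ) ^ a) :
    1 / 2 ≤ theta fun n => moeb n * f ω n := by
  refine le_theta hne fun a C _ hC => ?_
  obtain ⟨R0, hR0⟩ := sqf_dens
  refine Pool.Agent.Q163.EX.half_le (fun n => moeb n * f ω n) (1 / 4) (by norm_num) R0
    (fun R hR => ?_) a C hC
  refine (hR0 R hR).trans (le_of_eq (sum_congr rfl fun n _ => ?_))
  rw [mul_pow, f_eq, Pool.Agent.Q13.EP.cm_sq, mul_one]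

/-- upper bounds for the exponent from the bound for all phases -/
theorem theta_of {ω : ℕ → Bool} {σ : ℝ} (hσ : 0 ≤ σ) (h : AllPhases (f ω) moeb σ) :
    1 / 2 ≤ theta (fun n => moeb n * f ω n) ∧ theta (fun n => moeb n * f ω n) ≤ σ := by
  have hup : ∀ τ : ℝ, σ < τ → ∃ C : ℝ, ∀ R : ℕ, 1 ≤ R → ∀ x : ℝ,
      ‖∑ n ∈ Finset.Icc 1 R, ((moeb n * f ω n : ℝ) : ℂ) * e (n * x)‖ ≤ C * (R : ℝ) ^ τ := by
    intro τ hτ
    obtain ⟨C, hC⟩ := h 1 (τ - σ) (by linarith)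
    refine ⟨C, fun R hR x => ?_⟩
    have h1 := lin (g := fun n => moeb n * f ω n) (fun F hF => hC R F hR hF) x
    rwa [show σ + (τ - σ) = τ by ring] at h1
  exact ⟨half_le_theta ⟨σ + 1, by linarith, hup _ (by linarith)⟩, theta_le hσ hup⟩

section Main

variable (hE : S_ENG) (hF : S_FIN) (hLaw : S_LAW) (hLow : S_LOW)

include hE hF in
theorem weights (ν : Measure (ℕ → Bool)) [IsProbabilityMeasure ν] (δ : ℝ) (hδ : 0 ≤ δ) (hν : IL ν δ)
    (W : ℕ → Finset (ℕ → ℝ)) (A : ℝ) (h1 : ∀ J, ∀ w ∈ W J, ∀ m, |w m| ≤ 1)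
    (h2 : ∀ J, ∀ w ∈ W J, ∀ m, 2 ^ J < m → w m = 0)
    (h3 : ∀ J, ((W J).card : ℝ) ≤ Real.exp (A * ((J : ℝ) + 1))) :
    ∀ᵐ ω ∂ν, ∀ ω' : ℕ → Bool, {k | ω' k ≠ ω k}.Finite → AllWeights (f ω') W ((1 + δ) / 2) :=
  ae_fin hF hδ (fun ν' _ hν' => hE ν' δ hδ hν' W A h1 h2 h3) ν hν

include hE hF in
theorem phases (ν : Measure (ℕ → Bool)) [IsProbabilityMeasure ν] (δ : ℝ) (hδ : 0 ≤ δ) (hν : IL ν δ)
    (a : ℕ → ℝ) (ha : ∀ n, |a n| ≤ 1) :
    ∀ᵐ ω ∂ν, ∀ ω' : ℕ → Bool, {k | ω' k ≠ ω k}.Finite → AllPhases (f ω') a ((1 + δ) / 2) :=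
  ae_fin hF hδ (fun ν' _ hν' => Pool.Agent.Q13.EP.poly hE ν' δ hδ hν' a ha) ν hν

theorem IL_of_le {ν : Measure (ℕ → Bool)} {δ C : ℝ}
    (h : ∀ x : ℕ, 1 ≤ x → Pool.Agent.Q255.IR.D ν (Nat.primeCounting x) ≤ C * (x : ℝ) ^ δ) : IL ν δ := by
  intro ε hε
  have h2 : ∀ᶠ x : ℕ in atTop, max C 0 ≤ (x : ℝ) ^ ε :=
    ((tendsto_rpow_atTop hε).comp tendsto_natCast_atTop_atTop).eventually_ge_atTop _
  filter_upwards [h2, eventually_ge_atTop 1] with x hx hx1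
  have hxp : (0 : ℝ) < x := by exact_mod_cast hx1
  refine (h x hx1).trans ?_
  rw [Real.rpow_add hxp, mul_comm ((x : ℝ) ^ δ)]
  refine mul_le_mul_of_nonneg_right ((le_max_left _ _).trans hx) (by positivity)

/-- finite changes do not change the deviations of the partial sums -/
theorem dev_fin {ω ω' : ℕ → Bool} (hfin : {k | ω' k ≠ ω k}.Finite) {g : ℕ → ℝ}
    (h : ∀ ε : ℝ, 0 < ε → ∃ C : ℝ, ∀ n : ℕ,
      |∑ k ∈ Finset.range n, (Pool.Agent.Q255.IC.sg ω k - g k)| ≤ C * ((n : ℝ) + 1) ^ (1 / 2 + ε)) :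
    ∀ ε : ℝ, 0 < ε → ∃ C : ℝ, ∀ n : ℕ,
      |∑ k ∈ Finset.range n, (Pool.Agent.Q255.IC.sg ω' k - g k)| ≤ C * ((n : ℝ) + 1) ^ (1 / 2 + ε) := by
  intro ε hε
  obtain ⟨C, hC⟩ := h ε hε
  refine ⟨C + 2 * hfin.toFinset.card, fun n => ?_⟩
  have h1 : ∑ k ∈ Finset.range n, (Pool.Agent.Q255.IC.sg ω' k - g k) =
      ∑ k ∈ Finset.range n, (Pool.Agent.Q255.IC.sg ω k - g k) +
        ∑ k ∈ Finset.range n, (Pool.Agent.Q255.IC.sg ω' k - Pool.Agent.Q255.IC.sg ω k) := by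
    rw [← Finset.sum_add_distrib]
    exact Finset.sum_congr rfl fun k _ => by ring
  have h2 : |∑ k ∈ Finset.range n, (Pool.Agent.Q255.IC.sg ω' k - Pool.Agent.Q255.IC.sg ω k)| ≤
      2 * hfin.toFinset.card := by
    have h3 : ∑ k ∈ Finset.range n, (Pool.Agent.Q255.IC.sg ω' k - Pool.Agent.Q255.IC.sg ω k) =
        ∑ k ∈ (Finset.range n).filter (fun k => k ∈ hfin.toFinset),
          (Pool.Agent.Q255.IC.sg ω' k - Pool.Agent.Q255.IC.sg ω k) := by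
      rw [Finset.sum_filter]
      refine Finset.sum_congr rfl fun k _ => ?_
      by_cases hk : k ∈ hfin.toFinset
      · rw [if_pos hk]
      · rw [if_neg hk]
        have : ω' k = ω k := by
          by_contra h4
          exact hk (by simpa using h4)
        unfold Pool.Agent.Q255.IC.sg
        rw [this, sub_self]
    rw [h3]
    refine (Finset.abs_sum_le_sum_abs _ _).trans ?_
    refine (Finset.sum_le_sum (g := fun _ => (2 : ℝ)) fun k _ => ?_).trans ?_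
    · have a1 := Pool.Agent.Q255.IC.abs_sg ω k
      have a2 := Pool.Agent.Q255.IC.abs_sg ω' k
      have a3 := abs_sub (Pool.Agent.Q255.IC.sg ω' k) (Pool.Agent.Q255.IC.sg ω k)
      linarith
    · rw [Finset.sum_const, nsmul_eq_mul, mul_comm]
      have : ((Finset.range n).filter (fun k => k ∈ hfin.toFinset)).card ≤ hfin.toFinset.card :=
        Finset.card_le_card fun k hk => (Finset.mem_filter.1 hk).2
      have h5 : (((Finset.range n).filter (fun k => k ∈ hfin.toFinset)).card : ℝ) ≤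
          hfin.toFinset.card := by exact_mod_cast this
      linarith
  rw [h1]
  have h3 : (1 : ℝ) ≤ ((n : ℝ) + 1) ^ (1 / 2 + ε) :=
    Real.one_le_rpow (by linarith [Nat.cast_nonneg (α := ℝ) n]) (by positivity)
  have h4 : (0 : ℝ) ≤ 2 * hfin.toFinset.card := by positivity
  calc _ ≤ _ := abs_add_le _ _
    _ ≤ C * ((n : ℝ) + 1) ^ (1 / 2 + ε) + 2 * hfin.toFinset.card := add_le_add (hC n) h2
    _ ≤ C * ((n : ℝ) + 1) ^ (1 / 2 + ε) + 2 * hfin.toFinset.card * ((n : ℝ) + 1) ^ (1 / 2 + ε) := by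
        have h5 := mul_le_mul_of_nonneg_left h3 h4
        linarith
    _ = _ := by ring

include hLow in
/-- the lower bound -/
theorem low {ω : ℕ → Bool} {δ : ℝ} (hδ0 : 0 < δ) (hδ : δ < 1)
    (h : ∀ ε : ℝ, 0 < ε → ∃ C : ℝ, ∀ n : ℕ,
      |∑ k ∈ Finset.range n, (Pool.Agent.Q255.IC.sg ω k -
        -(Pool.Agent.Q255.IC.pr k : ℝ) ^ ((δ - 1) / 2))| ≤ C * ((n : ℝ) + 1) ^ (1 / 2 + ε))
    (hne : ∃ a : ℝ, 0 ≤ a ∧ ∃ C : ℝ, ∀ R : ℕ, 1 ≤ R →
      ∀ x : ℝ, ‖∑ n ∈ Finset.Icc 1 R, ((moeb n * f ω n : ℝ) : ℂ) * e (n * x)‖ ≤ C * (R : ℝ) ^ a) :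
    (1 + δ) / 2 ≤ theta fun n => moeb n * f ω n := by
  refine le_theta hne fun a C _ hC => ?_
  by_contra hlt
  push Not at hlt
  refine hLow ω ((1 + δ) / 2) (by linarith) (by linarith) (fun ε hε => ?_) a hlt ⟨C, fun R hR => ?_⟩
  · obtain ⟨C', hC'⟩ := h ε hε
    refine ⟨C', fun n => ?_⟩
    have h1 := hC' n
    simp only [sub_neg_eq_add] at h1
    rwa [show (1 + δ) / 2 - 1 = (δ - 1) / 2 by ring]
  · have h3 := hC R hR 0
    have h4 : ∀ n : ℕ, e ((n : ℝ) * 0) = 1 := by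
      intro n
      unfold e
      simp
    simp only [h4, mul_one] at h3
    rw [← Complex.ofReal_sum, Complex.norm_real, Real.norm_eq_abs] at h3
    exact h3

include hE hF hLaw hLow in
theorem sharp (δ : ℝ) (hδ0 : 0 ≤ δ) (hδ : δ < 1) :
    ∃ ν : Measure (ℕ → Bool), IsProbabilityMeasure ν ∧
      (∃ C : ℝ, ∀ x : ℕ, 1 ≤ x → information ν x ≤ C * (x : ℝ) ^ δ) ∧
      ∀ᵐ ω ∂ν, ∀ ω' : ℕ → Bool, {k | ω' k ≠ ω k}.Finite →
        theta (fun n => moeb n * f ω' n) = (1 + δ) / 2 := by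
  rcases eq_or_lt_of_le hδ0 with h0 | h0
  · subst h0
    obtain ⟨ν, hν, hD, -⟩ := hLaw (fun _ => 0) (fun _ => by simp)
    refine ⟨ν, hν, ⟨0, fun x _ => ?_⟩, ?_⟩
    · rw [info_eq]
      simpa using hD (Nat.primeCounting x)
    · have hIL : IL ν 0 := IL_of_le (C := 0) fun x _ => by simpa using hD (Nat.primeCounting x)
      filter_upwards [phases hE hF ν 0 le_rfl hIL moeb moeb_le] with ω hω ω' hω'
      have h1 := theta_of (by norm_num) (hω ω' hω')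
      rw [show ((1 : ℝ) + 0) / 2 = 1 / 2 by norm_num] at h1 ⊢
      exact le_antisymm h1.2 h1.1
  · have hd : ∀ k, |(-(Pool.Agent.Q255.IC.pr k : ℝ) ^ ((δ - 1) / 2))| ≤ 1 := by
      intro k
      rw [abs_neg, abs_of_nonneg (by positivity)]
      exact Real.rpow_le_one_of_one_le_of_nonpos
        (by exact_mod_cast (Pool.Agent.Q255.IC.pr_prime k).one_lt.le) (by linarith)
    obtain ⟨ν, hν, hD, hdev⟩ := hLaw (fun k => -(Pool.Agent.Q255.IC.pr k : ℝ) ^ ((δ - 1) / 2)) hd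
    have hD' : ∀ x : ℕ, Pool.Agent.Q255.IR.D ν (Nat.primeCounting x) ≤ δ⁻¹ * (x : ℝ) ^ δ :=
      fun x => (hD _).trans (sum_pr_le h0 hδ.le x)
    refine ⟨ν, hν, ⟨δ⁻¹, fun x _ => ?_⟩, ?_⟩
    · rw [info_eq]
      exact hD' x
    · have hIL : IL ν δ := IL_of_le fun x _ => hD' x
      filter_upwards [phases hE hF ν δ h0.le hIL moeb moeb_le, hdev] with ω hω hω2 ω' hω'
      have h1 := theta_of (by linarith) (hω ω' hω')
      refine le_antisymm h1.2 (low hLow h0 hδ (dev_fin hω' hω2) ?_)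
      obtain ⟨C, hC⟩ := hω ω' hω' 1 1 one_pos
      exact ⟨(1 + δ) / 2 + 1, by linarith, C, fun R hR x =>
        lin (g := fun n => moeb n * f ω' n) (fun F hF' => hC R F hR hF') x⟩

end Main

/-- **The price of the growth exponent.**

1. `I(x) ≤ x^{δ+o(1)}`, `δ ≥ 0`: almost surely, for every `f'` equal to `f` at all but finitely many primes, square root
cancellation with the exponent `(1+δ)/2` for all weights of a given family, for all polynomial phases, and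
`1/2 ≤ θ(μ f') ≤ (1+δ)/2`.
2. For every `0 ≤ δ < 1` there is a law with `I(x) ≤ C x^δ` for which almost surely `θ(μ f') = (1+δ)/2` for all these
`f'`. -/
theorem result :
    (∀ (ν : Measure (ℕ → Bool)) [IsProbabilityMeasure ν] (δ : ℝ), 0 ≤ δ → InformationExponentAtMost ν δ →
      (∀ (W : ℕ → Finset (ℕ → ℝ)) (A : ℝ), (∀ J, ∀ w ∈ W J, ∀ m, |w m| ≤ 1) →
        (∀ J, ∀ w ∈ W J, ∀ m, 2 ^ J < m → w m = 0) →
        (∀ J, ((W J).card : ℝ) ≤ Real.exp (A * ((J : ℝ) + 1))) →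
        ∀ᵐ ω ∂ν, ∀ ω' : ℕ → Bool, {k | ω' k ≠ ω k}.Finite → AllWeights (f ω') W ((1 + δ) / 2)) ∧
      (∀ a : ℕ → ℝ, (∀ n, |a n| ≤ 1) →
        ∀ᵐ ω ∂ν, ∀ ω' : ℕ → Bool, {k | ω' k ≠ ω k}.Finite → AllPhases (f ω') a ((1 + δ) / 2)) ∧
      ∀ᵐ ω ∂ν, ∀ ω' : ℕ → Bool, {k | ω' k ≠ ω k}.Finite →
        1 / 2 ≤ theta (fun n => moeb n * f ω' n) ∧ theta (fun n => moeb n * f ω' n) ≤ (1 + δ) / 2) ∧
    (∀ δ : ℝ, 0 ≤ δ → δ < 1 → ∃ ν : Measure (ℕ → Bool), IsProbabilityMeasure ν ∧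
      (∃ C : ℝ, ∀ x : ℕ, 1 ≤ x → information ν x ≤ C * (x : ℝ) ^ δ) ∧
      ∀ᵐ ω ∂ν, ∀ ω' : ℕ → Bool, {k | ω' k ≠ ω k}.Finite →
        theta (fun n => moeb n * f ω' n) = (1 + δ) / 2) := by
  refine ⟨fun ν _ δ hδ hν => ⟨fun W A h1 h2 h3 => ?_, fun a ha => ?_, ?_⟩, fun δ h0 h1 => ?_⟩
  · exact weights Pool.Agent.Q190.EP.t_ENG Pool.Agent.Q14.EP.t_FIN ν δ hδ (IL_of hν) W A h1 h2 h3
  · exact phases Pool.Agent.Q190.EP.t_ENG Pool.Agent.Q14.EP.t_FIN ν δ hδ (IL_of hν) a ha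
  · filter_upwards [phases Pool.Agent.Q190.EP.t_ENG Pool.Agent.Q14.EP.t_FIN ν δ hδ (IL_of hν) moeb
      moeb_le] with ω hω ω' hω'
    exact theta_of (by positivity) (hω ω' hω')
  · exact sharp Pool.Agent.Q190.EP.t_ENG Pool.Agent.Q14.EP.t_FIN Pool.Agent.Q68.EP.law_stm
      Pool.Agent.Q13.EP.t_LOW δ h0 h1

end Pool.Agent.Results.MP_b6b996_nt.PriceOfTheExponent
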