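import Pool.Agent.Q163.EX.Exp

set_option autoImplicit false

/-!
# Exact growth exponents of exponential sums with completely multiplicative functions

Let `Q` be a set of primes and let `χ` be the completely multiplicative function with given signs at the
primes of `Q` and independent fair signs at the other primes. Almost surely the sums of `a(n) χ(n) e(F(n))` over
`n ≤ R` are `O(R^σ)` for every `σ` above `1/2` and above the exponent of convergence of `Q`, uniformly in all real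
polynomials `F` of bounded degree, for arbitrary bounded weights `a`. If the signs at `Q` are `1`, this is
sharp: the growth exponent of the sup norm is almost surely exactly the larger one of `1/2` and of the exponent
of convergence of `Q`. In particular `θ = 1/2` for `μ χ` when the exponent of convergence is at most `1/2`.
-/

namespace Pool.Agent.Results.MP_b6b996_nt.ExactExponents

open Finset Filter Topology MeasureTheory Pool.Agent.Q163.RP Pool.Agent.Q163.RX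
  Pool.Agent.Q163.WM Pool.Agent.Q163.EX

open Classical in
/-- the completely multiplicative function with the value `s p` at the primes `p` of `Q` and the value `1` or
`-1` according to `ω p` at the other primes `p` -/
noncomputable def chi (Q : Set ℕ) (s : ℕ → ℝ) (ω : ℕ → Bool) (n : ℕ) : ℝ :=
  ∏ p ∈ n.primeFactors, (if p ∈ Q then s p else if ω p = true then 1 else -1) ^ n.factorization p

/-- the Moebius function -/
noncomputable def moeb (n : ℕ) : ℝ := ((ArithmeticFunction.moebius n : ℤ) : ℝ)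

/-- `e(x) = exp(2 π i x)` -/
noncomputable def e (x : ℝ) : ℂ := Complex.exp ((2 * Real.pi * x : ℝ) * Complex.I)

/-- the growth exponent of the sup norm of the exponential sums with coefficients `f` -/
noncomputable def theta (f : ℕ → ℝ) : ℝ := sInf {a : ℝ | 0 ≤ a ∧ ∃ C : ℝ, ∀ R : ℕ, 1 ≤ R → ∀ x : ℝ,
  ‖∑ n ∈ Finset.Icc 1 R, (f n : ℂ) * e (n * x)‖ ≤ C * (R : ℝ) ^ a}

open Classical in
/-- the exponent of convergence of the set of the primes in `Q` -/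
noncomputable def cexp (Q : Set ℕ) : ℝ :=
  sInf {t : ℝ | 0 ≤ t ∧ Summable fun p : ℕ => if p.Prime ∧ p ∈ Q then (p : ℝ) ^ (-t) else 0}

lemma chi_eq (Q : Set ℕ) (s : ℕ → ℝ) (ω : ℕ → Bool) (n : ℕ) : chi Q s ω n = mult (vl Qᶜ s ω) n := by
  unfold chi mult vl es sgn
  refine Finset.prod_congr rfl fun p _ => ?_
  by_cases hp : p ∈ Q
  · have h1 : ¬ p ∈ Qᶜ := fun h => h hp
    rw [if_pos hp, if_neg h1]
  · have h1 : p ∈ Qᶜ := hp
    rw [if_neg hp, if_pos h1]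

open Classical in
lemma Cv_iff (Q : Set ℕ) (t : ℝ) :
    Cv Qᶜᶜ t ↔ Summable fun p : ℕ => if p.Prime ∧ p ∈ Q then (p : ℝ) ^ (-t) else 0 := by
  unfold Cv cq
  rw [compl_compl]
  have h : (fun p : ℕ => if p.Prime then (if p ∈ Q then (p : ℝ) ^ (-t) else 0) else 0) =
      fun p : ℕ => if p.Prime ∧ p ∈ Q then (p : ℝ) ^ (-t) else 0 := by
    funext p
    rw [ite_and]
  rw [h]

lemma Cv_mono {Q : Set ℕ} {t t' : ℝ} (h : t ≤ t') (ht : Cv Q t) : Cv Q t' := by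
  classical
  unfold Cv at ht ⊢
  refine Summable.of_nonneg_of_le (fun p => ?_) (fun p => ?_) ht
  · split_ifs
    · exact cq_nonneg _ _ _
    · exact le_rfl
  · by_cases hp : p.Prime
    · rw [if_pos hp, if_pos hp]
      unfold cq
      split_ifs
      · exact Real.rpow_le_rpow_of_exponent_le (by exact_mod_cast hp.one_lt.le) (neg_le_neg h)
      · exact le_rfl
    · rw [if_neg hp, if_neg hp]

open Classical in
lemma cset_ne (Q : Set ℕ) {t : ℝ} (ht : 1 < t) :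
    Summable fun p : ℕ => if p.Prime ∧ p ∈ Q then (p : ℝ) ^ (-t) else 0 := by
  refine Summable.of_nonneg_of_le (fun p => by split_ifs <;> positivity) (fun p => ?_)
    (Real.summable_nat_rpow.2 (by linarith : -t < -1))
  split_ifs
  · exact le_rfl
  · positivity

lemma Cv_of_lt {Q : Set ℕ} {t : ℝ} (h : cexp Q < t) : Cv Qᶜᶜ t := by
  classical
  have hne : {t : ℝ | 0 ≤ t ∧ Summable fun p : ℕ =>
      if p.Prime ∧ p ∈ Q then (p : ℝ) ^ (-t) else 0}.Nonempty :=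
    ⟨2, by norm_num, cset_ne Q (by norm_num)⟩
  obtain ⟨a, ha, hat⟩ := exists_lt_of_csInf_lt hne h
  exact Cv_mono hat.le ((Cv_iff Q a).2 ha.2)

lemma cexp_bdd (Q : Set ℕ) : BddBelow {t : ℝ | 0 ≤ t ∧ Summable fun p : ℕ =>
    (open Classical in if p.Prime ∧ p ∈ Q then (p : ℝ) ^ (-t) else 0)} := ⟨0, fun _ h => h.1⟩

lemma cexp_le {Q : Set ℕ} {t : ℝ} (ht : 0 ≤ t) (h : Cv Qᶜᶜ t) : cexp Q ≤ t :=
  csInf_le (cexp_bdd Q) ⟨ht, (Cv_iff Q t).1 h⟩

lemma cexp_le_one (Q : Set ℕ) : cexp Q ≤ 1 :=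
  le_of_forall_gt_imp_ge_of_dense fun t ht => csInf_le (cexp_bdd Q) ⟨by linarith, cset_ne Q ht⟩

/-- the upper bound -/
theorem upper (Q : Set ℕ) (s : ℕ → ℝ) (hs : ∀ p, s p = 1 ∨ s p = -1) (a : ℕ → ℝ)
    (ha : ∀ n, |a n| ≤ 1) : ∀ᵐ ω ∂cm, ∀ d : ℕ, ∀ σ : ℝ, max (1 / 2) (cexp Q) < σ → ∃ C : ℝ,
    ∀ R : ℕ, 1 ≤ R → ∀ F : Polynomial ℝ, F.natDegree ≤ d →
      ‖∑ n ∈ Finset.Icc 1 R, (a n * chi Q s ω n : ℝ) * e (F.eval (n : ℝ))‖ ≤ C * (R : ℝ) ^ σ := by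
  have h1 : ∀ᵐ ω ∂cm, ∀ d : ℕ, ∀ q : ℚ, max (1 / 2) (cexp Q) < (q : ℝ) → ∃ C : ℝ, 0 < C ∧
      ∀ R : ℕ, 1 ≤ R → ∀ F : Polynomial ℝ, F.natDegree ≤ d →
      ‖∑ n ∈ Icc 1 R, (a n * mult (vl Qᶜ s ω) n : ℝ) * ee (F.eval (n : ℝ))‖ ≤ C * (R : ℝ) ^ (q : ℝ) := by
    rw [ae_all_iff]
    intro d
    rw [ae_all_iff]
    intro q
    by_cases hq : max (1 / 2) (cexp Q) < (q : ℝ)
    · obtain ⟨σ', h2, h3⟩ := exists_between hq
      filter_upwards [ae_phases Qᶜ hs (lt_of_le_of_lt (le_max_left _ _) h2) h3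
        (Cv_of_lt (lt_of_le_of_lt (le_max_right _ _) h2)) a ha d] with ω hω _
      exact hω
    · exact Eventually.of_forall fun ω h => absurd h hq
  filter_upwards [h1] with ω hω d σ hσ
  obtain ⟨q, hq1, hq2⟩ := exists_rat_btwn hσ
  obtain ⟨C, hC, h⟩ := hω d q hq1
  refine ⟨C, fun R hR F hF => ?_⟩
  have h2 := h R hR F hF
  simp only [← chi_eq] at h2
  refine h2.trans (mul_le_mul_of_nonneg_left ?_ hC.le)
  exact Real.rpow_le_rpow_of_exponent_le (by exact_mod_cast hR) hq2.le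

/-- linear phases -/
lemma lin {f : ℕ → ℝ} {C σ : ℝ} {R : ℕ} (h : ∀ F : Polynomial ℝ, F.natDegree ≤ 1 →
    ‖∑ n ∈ Finset.Icc 1 R, (f n : ℂ) * e (F.eval (n : ℝ))‖ ≤ C * (R : ℝ) ^ σ) (x : ℝ) :
    ‖∑ n ∈ Finset.Icc 1 R, (f n : ℂ) * e (n * x)‖ ≤ C * (R : ℝ) ^ σ := by
  have h1 := h (Polynomial.C x * Polynomial.X)
    ((Polynomial.natDegree_C_mul_le _ _).trans Polynomial.natDegree_X_le)
  simp only [Polynomial.eval_mul, Polynomial.eval_C, Polynomial.eval_X] at h1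
  simp only [mul_comm _ x]
  exact h1

lemma theta_bdd (f : ℕ → ℝ) : BddBelow {a : ℝ | 0 ≤ a ∧ ∃ C : ℝ, ∀ R : ℕ, 1 ≤ R → ∀ x : ℝ,
    ‖∑ n ∈ Finset.Icc 1 R, (f n : ℂ) * e (n * x)‖ ≤ C * (R : ℝ) ^ a} := ⟨0, fun _ h => h.1⟩

/-- an upper bound for the growth exponent -/
lemma theta_le {f : ℕ → ℝ} {M : ℝ} (hM : 0 ≤ M) (h : ∀ σ : ℝ, M < σ → ∃ C : ℝ, ∀ R : ℕ, 1 ≤ R →
    ∀ x : ℝ, ‖∑ n ∈ Finset.Icc 1 R, (f n : ℂ) * e (n * x)‖ ≤ C * (R : ℝ) ^ σ) : theta f ≤ M :=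
  le_of_forall_gt_imp_ge_of_dense fun σ hσ => csInf_le (theta_bdd f) ⟨by linarith, h σ hσ⟩

lemma le_theta {f : ℕ → ℝ} {M : ℝ} (hne : ∃ a : ℝ, 0 ≤ a ∧ ∃ C : ℝ, ∀ R : ℕ, 1 ≤ R →
    ∀ x : ℝ, ‖∑ n ∈ Finset.Icc 1 R, (f n : ℂ) * e (n * x)‖ ≤ C * (R : ℝ) ^ a)
    (h : ∀ a C : ℝ, 0 ≤ a → (∀ R : ℕ, 1 ≤ R → ∀ x : ℝ,
      ‖∑ n ∈ Finset.Icc 1 R, (f n : ℂ) * e (n * x)‖ ≤ C * (R : ℝ) ^ a) → M ≤ a) : M ≤ theta f := by
  obtain ⟨a, ha⟩ := hne
  refine le_csInf ⟨a, ha⟩ fun b hb => ?_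
  obtain ⟨hb0, C, hC⟩ := hb
  exact h b C hb0 hC

lemma sq_chi (Q : Set ℕ) {s : ℕ → ℝ} (hs : ∀ p, s p = 1 ∨ s p = -1) (ω : ℕ → Bool) (n : ℕ) :
    chi Q s ω n ^ 2 = 1 := by
  rw [chi_eq, ← sq_abs, abs_mv Qᶜ hs, one_pow]

/-- squarefree numbers have positive density -/
lemma sqf_dens : ∃ R0 : ℕ, ∀ R : ℕ, R0 ≤ R → 1 / 4 * (R : ℝ) ≤ ∑ n ∈ Icc 1 R, moeb n ^ 2 := by
  refine ⟨400, fun R hR => ?_⟩
  have h1 := (abs_le.1 (Pool.Agent.Q163.GC.QQ_bound R)).1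
  have hRR : (400 : ℝ) ≤ R := by exact_mod_cast hR
  have h2 : Pool.Agent.Q163.GC.QQ R = ∑ n ∈ Icc 1 R, moeb n ^ 2 := by
    unfold Pool.Agent.Q163.GC.QQ
    refine sum_nbij' (fun n => n + 1) (fun n => n - 1) ?_ ?_ ?_ ?_ ?_
    · intro n hn
      rw [mem_range] at hn
      rw [mem_Icc]
      omega
    · intro n hn
      rw [mem_Icc] at hn
      rw [mem_range]
      omega
    · intro n _
      rfl
    · intro n hn
      rw [mem_Icc] at hn
      show n - 1 + 1 = n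
      omega
    · intro n _
      rfl
  rw [h2] at h1
  have hpi : 6 / Real.pi ^ 2 ≥ 1 / 2 := by
    have h3 := Real.pi_lt_d2
    have h4 := Real.pi_pos
    rw [ge_iff_le, div_le_div_iff₀ (by norm_num) (by positivity)]
    nlinarith
  have h5 : Real.sqrt R ≤ R / 20 := by
    rw [Real.sqrt_le_left (by positivity)]
    nlinarith
  nlinarith

/-- **The exact exponents.** -/
theorem result :
    -- (1) upper bound: arbitrary signs at `Q`, arbitrary weights, all polynomial phases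
    (∀ (Q : Set ℕ) (s : ℕ → ℝ), (∀ p, s p = 1 ∨ s p = -1) → ∀ a : ℕ → ℝ, (∀ n, |a n| ≤ 1) →
      ∀ᵐ ω ∂cm, ∀ ω' : ℕ → Bool, {p | ω' p ≠ ω p}.Finite →
      ∀ d : ℕ, ∀ σ : ℝ, max (1 / 2) (cexp Q) < σ → ∃ C : ℝ, ∀ R : ℕ, 1 ≤ R →
      ∀ F : Polynomial ℝ, F.natDegree ≤ d →
        ‖∑ n ∈ Finset.Icc 1 R, (a n * chi Q s ω' n : ℝ) * e (F.eval (n : ℝ))‖ ≤ C * (R : ℝ) ^ σ) ∧
    -- (2) the exact exponent for every set `Q`
    (∀ Q : Set ℕ, ∀ᵐ ω ∂cm, ∀ ω' : ℕ → Bool, {p | ω' p ≠ ω p}.Finite →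
      theta (chi Q (fun _ => 1) ω') = max (1 / 2) (cexp Q)) ∧
    -- (3) the exponent `1/2` for the Moebius function
    (∀ (Q : Set ℕ) (s : ℕ → ℝ), (∀ p, s p = 1 ∨ s p = -1) → cexp Q ≤ 1 / 2 →
      ∀ᵐ ω ∂cm, ∀ ω' : ℕ → Bool, {p | ω' p ≠ ω p}.Finite →
      theta (fun n => moeb n * chi Q s ω' n) = 1 / 2) ∧
    -- (4) twists which agree with the Moebius function at all primes of `Q`
    (∀ Q : Set ℕ, cexp Q ≤ 1 / 2 → ∃ g : ℕ → ℝ, (∀ n, g n = 1 ∨ g n = -1) ∧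
      (∀ m n, 1 ≤ m → 1 ≤ n → g (m * n) = g m * g n) ∧ (∀ p : ℕ, p.Prime → p ∈ Q → g p = 1) ∧
      theta (fun n => moeb n * g n) = 1 / 2) := by
  have hthree : ∀ (Q : Set ℕ) (s : ℕ → ℝ), (∀ p, s p = 1 ∨ s p = -1) → cexp Q ≤ 1 / 2 →
      ∀ᵐ ω ∂cm, theta (fun n => moeb n * chi Q s ω n) = 1 / 2 := by
    intro Q s hs hQ
    obtain ⟨R0, hR0⟩ := sqf_dens
    filter_upwards [upper Q s hs moeb (fun n => by
      unfold moeb
      have := ArithmeticFunction.abs_moebius_le_one (n := n)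
      exact_mod_cast this)] with ω hω
    have hup : ∀ σ : ℝ, 1 / 2 < σ → ∃ C : ℝ, ∀ R : ℕ, 1 ≤ R → ∀ x : ℝ,
        ‖∑ n ∈ Finset.Icc 1 R, ((moeb n * chi Q s ω n : ℝ) : ℂ) * e (n * x)‖ ≤ C * (R : ℝ) ^ σ := by
      intro σ hσ
      obtain ⟨C, hC⟩ := hω 1 σ (by rw [max_eq_left hQ]; exact hσ)
      exact ⟨C, fun R hR x => lin (f := fun n => moeb n * chi Q s ω n) (hC R hR) x⟩
    refine le_antisymm (theta_le (by norm_num) hup) (le_theta ?_ ?_)
    · exact ⟨1, by norm_num, hup 1 (by norm_num)⟩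
    · intro a C _ hC
      refine half_le (fun n => moeb n * chi Q s ω n) (1 / 4) (by norm_num) R0 (fun R hR => ?_) a C hC
      refine (hR0 R hR).trans (le_of_eq (sum_congr rfl fun n _ => ?_))
      rw [mul_pow, sq_chi Q hs, mul_one]
  refine ⟨?_, ?_, ?_, ?_⟩
  · intro Q s hs a ha
    exact ae_fin (upper Q s hs a ha)
  · intro Q
    refine ae_fin ?_
    have h1 : ∀ᵐ ω ∂cm, ∀ q : ℚ, 1 / 2 < (q : ℝ) → (q : ℝ) < 1 → ∀ C : ℝ,
        (∀ R : ℕ, 1 ≤ R → |∑ n ∈ Icc 1 R, mult (vl Qᶜ (fun _ => 1) ω) n| ≤ C * (R : ℝ) ^ (q : ℝ)) →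
        ∀ τ : ℝ, (q : ℝ) < τ → Cv Qᶜᶜ τ := by
      rw [ae_all_iff]
      intro q
      by_cases hq : 1 / 2 < (q : ℝ) ∧ (q : ℝ) < 1
      · filter_upwards [lower Qᶜ q hq.1 hq.2] with ω hω _ _
        exact hω
      · exact Eventually.of_forall fun ω h2 h3 => absurd ⟨h2, h3⟩ hq
    filter_upwards [h1, upper Q (fun _ => 1) ones (fun _ => 1) (fun _ => by simp)] with ω hω1 hω2
    have hup : ∀ σ : ℝ, max (1 / 2) (cexp Q) < σ → ∃ C : ℝ, ∀ R : ℕ, 1 ≤ R → ∀ x : ℝ,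
        ‖∑ n ∈ Finset.Icc 1 R, ((chi Q (fun _ => 1) ω n : ℝ) : ℂ) * e (n * x)‖ ≤ C * (R : ℝ) ^ σ := by
      intro σ hσ
      obtain ⟨C, hC⟩ := hω2 1 σ hσ
      simp only [one_mul] at hC
      exact ⟨C, fun R hR x => lin (f := fun n => chi Q (fun _ => 1) ω n) (hC R hR) x⟩
    refine le_antisymm (theta_le (le_max_of_le_left (by norm_num)) hup) (le_theta ?_ ?_)
    · exact ⟨2, by norm_num, hup 2 (max_lt (by norm_num) (lt_of_le_of_lt (cexp_le_one Q) (by norm_num)))⟩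
    · intro a C _ hC
      have h12 : 1 / 2 ≤ a := by
        refine half_le (fun n => chi Q (fun _ => 1) ω n) 1 one_pos 0 (fun R _ => ?_) a C hC
        have : ∑ n ∈ Icc 1 R, chi Q (fun _ => 1) ω n ^ 2 = R := by
          rw [sum_congr rfl fun n _ => sq_chi Q ones ω n]
          simp
        rw [this, one_mul]
      refine max_le h12 ?_
      rcases le_or_gt 1 a with h | h
      · exact (cexp_le_one Q).trans h
      · refine le_of_forall_gt_imp_ge_of_dense fun b hb => ?_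
        obtain ⟨q, hq1, hq2⟩ := exists_rat_btwn (lt_min hb h)
        have hqb : (q : ℝ) < b := lt_of_lt_of_le hq2 (min_le_left _ _)
        have hC0 : 0 ≤ C := by
          have := (norm_nonneg _).trans (hC 1 le_rfl 0)
          simpa using this
        refine cexp_le (by linarith) (hω1 q (by linarith) (lt_of_lt_of_le hq2 (min_le_right _ _)) C
          (fun R hR => ?_) b hqb)
        have h3 := hC R hR 0
        have h4 : ∀ n : ℕ, e ((n : ℝ) * 0) = 1 := by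
          intro n
          unfold e
          simp
        simp only [h4, mul_one] at h3
        rw [← Complex.ofReal_sum, Complex.norm_real, Real.norm_eq_abs] at h3
        simp only [← chi_eq]
        refine h3.trans (mul_le_mul_of_nonneg_left ?_ hC0)
        exact Real.rpow_le_rpow_of_exponent_le (by exact_mod_cast hR) hq1.le
  · intro Q s hs hQ
    exact ae_fin (hthree Q s hs hQ)
  · intro Q hQ
    obtain ⟨ω, hω⟩ := (hthree Q (fun _ => 1) ones hQ).exists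
    refine ⟨chi Q (fun _ => 1) ω, ?_, ?_, ?_, hω⟩
    · intro n
      rw [chi_eq]
      exact (abs_eq zero_le_one).1 (abs_mv Qᶜ ones ω n)
    · intro m n hm hn
      rw [chi_eq, chi_eq, chi_eq]
      exact mult_mul _ (by omega) (by omega)
    · intro p hp hpQ
      unfold chi
      rw [hp.primeFactors, Finset.prod_singleton, hp.factorization_self, pow_one, if_pos hpQ]

end Pool.Agent.Results.MP_b6b996_nt.ExactExponents
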