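import Pool.Agent.Q275.ME.Top

/-!
# One `θ` for all constants

Let `F_R(θ) = ∑_{n ≤ R} μ(n) e(nθ)`, and let `E` be the set of the real numbers `θ` for which `F_R(θ)` is not
`O(√R)`, that is, `limsup |F_R(θ)| / √R = ∞`. The starting result `MP_b6b996_nt.SqrtBoundFails` gives for every
constant `C` a fraction `θ` (depending on `C`) with `|F_R(θ)| > C √R` for arbitrarily large `R`. Here the number
`θ` does not depend on `C`:

* `E` contains infinitely many numbers in `[0, 1)`;
* `E` is comeager (it contains a dense `G_δ` set), or for every large prime `p` and every large `l` it contains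
  a reduced fraction with denominator `p ^ (2l)`.

Proof. If `E` is not comeager, then `|F_R(θ)| ≤ C √R` for all `R` and all `θ` in an open interval `I`. Let `p` be
an odd prime with `1 / p < |I| / 2`. If `F_R(a / p ^ (2l)) = O_a(√R)` for all `a` prime to `p`, then the method
of `SqrtBoundFails` (helper821, with helpers 672, 571, 781, 998, 287, 925, 515, 971, 894, 864, 785) applies to
`F_R(θ) - F_R(θ + 1/p)` (in which the terms with `p ∣ n` cancel) averaged over the fractions `θ = b² / p ^ (2l)`,
`b ≡ 1 (mod p)`, in `I`, with the weights of a Riesz product; the average over the fractions in `I` is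
asymptotically the average over all fractions by Weyl's criterion and bounds for quadratic exponential sums
modulo `p ^ (2l)`. The dual sums with Kloosterman sums resemble `μ(m)` for many `m`, which contradicts the
uniform bound on `I`.
-/

set_option autoImplicit false

open Filter

namespace Pool.Agent.Results.MP_b6b996_nt.OneThetaAllConstants

/-- The Moebius exponential sum `F_R(x) = ∑_{n=1}^R μ(n) e^{2πinx}`. -/
noncomputable def F (R : ℕ) (x : ℝ) : ℂ :=
  ∑ n ∈ Finset.Icc 1 R, ((ArithmeticFunction.moebius n : ℤ) : ℂ) *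
    Complex.exp (2 * Real.pi * Complex.I * n * x)

/-- The set of the `θ` with `limsup |F_R(θ)| / √R = ∞`: for every `C` there are arbitrarily large `R` with
`|F_R(θ)| > C √R`. -/
def E : Set ℝ := {θ | ∀ C : ℝ, ∃ᶠ R : ℕ in atTop, C * Real.sqrt R < ‖F R θ‖}

/-- `E` contains infinitely many elements of `[0, 1)`; and it is comeager, unless it contains for every large
prime `p` and every large `l` a reduced fraction with denominator `p ^ (2l)`. -/
theorem result :
    (E ∩ Set.Ico (0 : ℝ) 1).Infinite ∧
    (E ∈ residual ℝ ∨ ∃ P₀ : ℕ, ∀ p : ℕ, p.Prime → P₀ ≤ p → ∃ l₀ : ℕ, 1 ≤ l₀ ∧ ∀ l : ℕ, l₀ ≤ l →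
      ∃ a : ℕ, a < p ^ (2 * l) ∧ ¬ p ∣ a ∧ ((a : ℝ) / (p : ℝ) ^ (2 * l)) ∈ E) :=
  ⟨Pool.Agent.Q275.ME.infinite, Pool.Agent.Q275.ME.dichotomy⟩

end Pool.Agent.Results.MP_b6b996_nt.OneThetaAllConstants
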