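import Pool.Agent.Q152.QT.PolyAll
import Pool.Agent.Q26.QT.MomC
import Pool.Agent.Q26.QT.Net
import Pool.Agent.Q14.QT.QT1
import Pool.Agent.Q14.QT.QT5
import Pool.Agent.Q63.QT.QT2
import Pool.Agent.Q31.QT.Triv

set_option autoImplicit false

/-!
# Square-root cancellation for the exponential sums of the Moebius function twisted by almost every quadratic symbol

For all but `P / Y ^ B` of the odd `m ≤ P` the sums of `g(n) μ(n) (n/m) e(F(n))` over the integers of an interval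
`(u, v]` contained in `[0, X]` are at most `√(v-u) X ^ ε`, for all intervals, all real polynomials `F` of degree at most
`d` and all `X` with `Y ≤ X ≤ P ^ (1/A)` simultaneously.

Method: high moments over `m`. The phases of degree at most `d` have a net of polynomially many functions, and for each
function of the net and each interval the moment of order `2 k` over the odd `m ≤ P` is, by the Polya-Vinogradov
inequality in its trivial form, bounded by the number of the solutions of `n_1 ... n_{2k} = square` in squarefree numbers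
of the interval, which is `O(|I| ^ k X ^ δ)`.
-/

namespace Pool.Agent.Results.MP_b6b996_nt.QuadraticTwists

open Finset Pool.Agent.Q152.QT

/-- The sum of `g(n) μ(n) (n/m) e(F(n))` over the integers `n` with `u < n ≤ v`; `(n/m)` is the Jacobi symbol and
`e(x) = exp(2 π i x)`. -/
noncomputable def S (g : ℕ → ℂ) (m u v : ℕ) (F : Polynomial ℝ) : ℂ :=
  ∑ n ∈ Ioc u v, g n * ((ArithmeticFunction.moebius n : ℤ) : ℂ) * ((jacobiSym (n : ℤ) m : ℤ) : ℂ) *
    Complex.exp (2 * Real.pi * Complex.I * (F.eval (n : ℝ) : ℝ))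

/-- Square-root cancellation up to the factor `X ^ ε`, for all intervals in `[0, X]` and all real polynomials of degree at
most `d`. -/
def SquareRoot (g : ℕ → ℂ) (m d : ℕ) (ε X : ℝ) : Prop :=
  ∀ u v : ℕ, u ≤ v → (v : ℝ) ≤ X → ∀ F : Polynomial ℝ, F.natDegree ≤ d →
    ‖S g m u v F‖ ≤ √((v : ℝ) - u) * X ^ ε

lemma S_eq (g : ℕ → ℂ) (m u v : ℕ) (F : Polynomial ℝ) :
    S g m u v F = ∑ n ∈ Ioc u v, fc g m n * eF F n := by
  unfold S
  refine sum_congr rfl fun n _ => ?_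
  have e1 : (((Pool.Agent.Y293.SF.mu n : ℝ)) : ℂ) = ((ArithmeticFunction.moebius n : ℤ) : ℂ) := by
    unfold Pool.Agent.Y293.SF.mu
    push_cast
    rfl
  have e2 : (2 * Real.pi * Complex.I * (F.eval (n : ℝ) : ℝ) : ℂ) =
      ((2 * Real.pi * F.eval (n : ℝ) : ℝ) : ℂ) * Complex.I := by
    push_cast
    ring
  unfold fc eF
  rw [e1, e2]

/-- **Square-root cancellation for almost all quadratic twists.** For every `d`, `ε > 0` and `B` there are `A` and `Y₀`
such that for all `g` with `|g| ≤ 1`, all `P` and all real `Y ≥ Y₀`: for all but at most `P / Y ^ B` of the odd `m ≤ P`,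
for all real `X ≥ Y` with `X ^ A ≤ P`, all `u ≤ v ≤ X` and all real polynomials `F` of degree at most `d` the sum of
`g(n) μ(n) (n/m) e(F(n))` over `u < n ≤ v` is at most `√(v-u) X ^ ε` in absolute value. -/
theorem result (d : ℕ) (ε : ℝ) (hε : 0 < ε) (B : ℕ) : ∃ (A : ℕ) (Y₀ : ℝ), 1 ≤ Y₀ ∧
    ∀ (g : ℕ → ℂ) (P : ℕ) (Y : ℝ), (∀ n, ‖g n‖ ≤ 1) → Y₀ ≤ Y →
      (({m : ℕ | m ≤ P ∧ Odd m ∧ ¬ ∀ X : ℝ, Y ≤ X → X ^ A ≤ P → SquareRoot g m d ε X}.ncard : ℕ) : ℝ) ≤
        P / Y ^ B := by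
  have h1 : S_Gcd := Pool.Agent.Q14.QT.t_Gcd
  have h2 : S_Wt := Pool.Agent.Q63.QT.t_Wt
  have h3a : S_Triv := Pool.Agent.Q31.QT.t_Triv h1 h2
  have h5 : S_Char := Pool.Agent.Q14.QT.t_Char
  obtain ⟨A, Y₀, _, hY₀, H⟩ := poly_all (Pool.Agent.Q26.QT.t_MomC h3a h5) Pool.Agent.Q26.QT.t_Net d ε hε B
  refine ⟨A, Y₀, hY₀, fun g P Y hg hY => ?_⟩
  obtain ⟨E, hE, L⟩ := H g P Y hg hY
  have hsub : {m : ℕ | m ≤ P ∧ Odd m ∧ ¬ ∀ X : ℝ, Y ≤ X → X ^ A ≤ P → SquareRoot g m d ε X} ⊆ (E : Set ℕ) := by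
    rintro m ⟨m1, m2, m3⟩
    rw [mem_coe]
    by_contra hcon
    apply m3
    intro X hX1 hX2 u v huv hv F hF
    rw [S_eq]
    exact L m m1 m2 hcon X hX1 hX2 u v huv hv F hF
  have c1 : {m : ℕ | m ≤ P ∧ Odd m ∧ ¬ ∀ X : ℝ, Y ≤ X → X ^ A ≤ P → SquareRoot g m d ε X}.ncard ≤ E.card := by
    rw [← Set.ncard_coe_finset E]
    exact Set.ncard_le_ncard hsub (finite_toSet _)
  have c5 : (({m : ℕ | m ≤ P ∧ Odd m ∧ ¬ ∀ X : ℝ, Y ≤ X → X ^ A ≤ P → SquareRoot g m d ε X}.ncard : ℕ) : ℝ) ≤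
      E.card := by
    exact_mod_cast c1
  linarith

end Pool.Agent.Results.MP_b6b996_nt.QuadraticTwists
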